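import Pool.Agent.H.MP_9ff1c8_al.A

namespace Pool.Agent.Results.MP_9ff1c8_al.Exists

open Pool.Agent.H.MP_9ff1c8_al

/-- Antiautomorphic inverse property. -/
def AAIP {Q : Type} (L : Loop Q) : Prop :=
  ∃ inv : Q → Q, (∀ x, L.mul x (inv x) = L.one ∧ L.mul (inv x) x = L.one) ∧
    ∀ x y, inv (L.mul x y) = L.mul (inv y) (inv x)

/-- The middle Bol identity `x ((y z) \ x) = (x / z) (y \ x)`. -/
def MiddleBol {Q : Type} (L : Loop Q) : Prop :=
  ∀ x y z, L.mul x (L.ld (L.mul y z) x) = L.mul (L.rd x z) (L.ld y x)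

structure V (α : Type) where
  a : α
  b : α
  c : α
  d : α
  e : α
  f : α
  deriving DecidableEq

section
variable {α β : Type} (p q : α → α → α)

def th (s t u v : α) : α := p (q s t) (q (q s t) (p u v))

def cu (c d e c' d' e' : α) : α :=
  p (q c (p (q d' e') (p (q d e') (q e d')))) (q c' (p (p (q d e') (q e d')) (q d e)))

def mu (x y : V α) : V α :=
  ⟨p x.a y.a, p x.b y.b, p (p x.c y.c) (p (th p q x.a y.a x.b y.b) (th p q x.b y.b x.a y.a)),
    p x.d y.d, p (p x.e y.e) (th p q x.b y.b x.a y.a),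
    p (p x.f y.f) (cu p q x.c x.d x.e y.c y.d y.e)⟩

def dv (x z : V α) : V α :=
  let a := p x.a z.a
  let b := p x.b z.b
  let c := p (p x.c z.c) (p (th p q x.a a x.b b) (th p q x.b b x.a a))
  let d := p x.d z.d
  let e := p (p x.e z.e) (th p q x.b b x.a a)
  ⟨a, b, c, d, e, p (p x.f z.f) (cu p q x.c x.d x.e c d e)⟩

def V.map (h : α → β) (x : V α) : V β := ⟨h x.a, h x.b, h x.c, h x.d, h x.e, h x.f⟩
end

lemma map_mu (i : ℕ) (x y : V ℕ) : (mu Nat.xor Nat.land x y).map (·.testBit i) =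
    mu xor and (x.map (·.testBit i)) (y.map (·.testBit i)) := by
  have h1 : ∀ a b, (Nat.xor a b).testBit i = xor (a.testBit i) (b.testBit i) :=
    fun a b => Nat.testBit_xor a b i
  have h2 : ∀ a b, (Nat.land a b).testBit i = (a.testBit i && b.testBit i) :=
    fun a b => Nat.testBit_and a b i
  simp only [mu, th, cu, V.map, h1, h2]

lemma map_dv (i : ℕ) (x y : V ℕ) : (dv Nat.xor Nat.land x y).map (·.testBit i) =
    dv xor and (x.map (·.testBit i)) (y.map (·.testBit i)) := by
  have h1 : ∀ a b, (Nat.xor a b).testBit i = xor (a.testBit i) (b.testBit i) :=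
    fun a b => Nat.testBit_xor a b i
  have h2 : ∀ a b, (Nat.land a b).testBit i = (a.testBit i && b.testBit i) :=
    fun a b => Nat.testBit_and a b i
  simp only [dv, th, cu, V.map, h1, h2]

def tv (j : ℕ) : V ℕ :=
  ⟨pat j 24, pat (j + 1) 24, pat (j + 2) 24, pat (j + 3) 24, pat (j + 4) 24, pat (j + 5) 24⟩

def o {α : Type} (p q : α → α → α) (a b x y : V α) : V α := mu p q (dv p q a x) (dv p q b y)

lemma check : o Nat.xor Nat.land (tv 0) (tv 6) (tv 12) (o Nat.xor Nat.land (tv 0) (tv 6) (tv 18) (tv 12)) =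
    o Nat.xor Nat.land (tv 0) (tv 6) (o Nat.xor Nat.land (tv 0) (tv 6) (tv 12) (tv 18)) (tv 12) := by
  decide +kernel

lemma uf (a b x y : V Bool) :
    o xor and a b x (o xor and a b y x) = o xor and a b (o xor and a b x y) x := by
  obtain ⟨i, hi⟩ := exists_index 24 ![a.a, a.b, a.c, a.d, a.e, a.f, b.a, b.b, b.c, b.d, b.e, b.f,
    x.a, x.b, x.c, x.d, x.e, x.f, y.a, y.b, y.c, y.d, y.e, y.f]
  have ha : (tv 0).map (·.testBit i) = a :=
    congr(V.mk $(hi 0) $(hi 1) $(hi 2) $(hi 3) $(hi 4) $(hi 5))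
  have hb : (tv 6).map (·.testBit i) = b :=
    congr(V.mk $(hi 6) $(hi 7) $(hi 8) $(hi 9) $(hi 10) $(hi 11))
  have hx : (tv 12).map (·.testBit i) = x :=
    congr(V.mk $(hi 12) $(hi 13) $(hi 14) $(hi 15) $(hi 16) $(hi 17))
  have hy : (tv 18).map (·.testBit i) = y :=
    congr(V.mk $(hi 18) $(hi 19) $(hi 20) $(hi 21) $(hi 22) $(hi 23))
  have := congrArg (V.map (·.testBit i)) check
  simpa only [o, map_mu, map_dv, ha, hb, hx, hy] using this

def z : V Bool := ⟨false, false, false, false, false, false⟩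

lemma two (a b c d e f a' b' c' d' e' f' : Bool) :
    let x : V Bool := ⟨a, b, c, d, e, f⟩
    let y : V Bool := ⟨a', b', c', d', e', f'⟩
    mu xor and x y = mu xor and y x ∧ mu xor and z x = x ∧ mu xor and x (dv xor and x y) = y ∧
      dv xor and x (mu xor and x y) = y ∧
      dv xor and (mu xor and x y) z = mu xor and (dv xor and y z) (dv xor and x z) := by
  revert a b c d e f a' b' c' d' e' f'
  decide +kernel

lemma two' (x y : V Bool) :
    mu xor and x y = mu xor and y x ∧ mu xor and z x = x ∧ mu xor and x (dv xor and x y) = y ∧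
      dv xor and x (mu xor and x y) = y ∧
      dv xor and (mu xor and x y) z = mu xor and (dv xor and y z) (dv xor and x z) :=
  two x.a x.b x.c x.d x.e x.f y.a y.b y.c y.d y.e y.f

def L : Loop (V Bool) where
  mul := mu xor and
  one := z
  ld := dv xor and
  rd := fun b a => dv xor and a b
  one_mul x := (two' x x).2.1
  mul_one x := (two' x z).1.trans (two' x x).2.1
  mul_ld a b := (two' a b).2.2.1
  ld_mul a x := (two' a x).2.2.2.1
  rd_mul a b := (two' _ a).1.trans (two' a b).2.2.1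
  mul_rd a y := by rw [(two' y a).1]; exact (two' a y).2.2.2.1

theorem result : ∃ (Q : Type) (L : Loop Q), (∀ x y, L.mul x y = L.mul y x) ∧ L.UF ∧ AAIP L ∧
    ¬ MiddleBol L := by
  refine ⟨V Bool, L, fun x y => (two' x y).1, fun a b x y => uf a b x y,
    ⟨fun x => dv xor and x z, fun x => ⟨(two' x z).2.2.1, (two' _ x).1.trans (two' x z).2.2.1⟩,
      fun x y => (two' x y).2.2.2.2⟩, fun h => ?_⟩
  have := h ⟨false, false, false, true, false, false⟩ ⟨true, false, false, false, false, false⟩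
    ⟨false, true, false, false, false, false⟩
  revert this
  decide

end Pool.Agent.Results.MP_9ff1c8_al.Exists
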